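import Mathlib
import Pool.Agent.H21.UI.Main
import Pool.Agent.H21.UI.Quad

/-!
# Anisotropic forms of dimension `u(F)`: Pfister multiples and quadratic extensions

Necessary conditions on a field of odd `u`-invariant: an anisotropic form `q` of dimension `u = u(F)` contains no subform
of dimension `2 ^ n ⌊u / 2 ^ n⌋ < u` which is a multiple of an `n`-fold Pfister form, and for odd `u` it does not split over
any quadratic extension.
-/

set_option autoImplicit false

namespace Pool.Agent.Results.MP_c19190_al.PfisterMultiples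

universe v w

/-- The `u`-invariant of `F` is `u`. -/
def IsU (F : Type v) [Field F] (u : ℕ) : Prop :=
  (∃ Q : QuadraticForm F (Fin u → F), Q.Anisotropic) ∧
    ∀ m : ℕ, u < m → ∀ Q : QuadraticForm F (Fin m → F), ¬ Q.Anisotropic

variable {F : Type v} [Field F]

/-- The multiple `⟨⟨a₁, …, aₙ⟩⟩ ⊗ ⟨c₁, …, c_k⟩` of the `n`-fold Pfister form `⟨1, -a₁⟩ ⊗ ⋯ ⊗ ⟨1, -aₙ⟩`, a diagonal form
in `2 ^ n k` variables. -/
noncomputable def multiple {n k : ℕ} (a : Fin n → F) (c : Fin k → F) : QuadraticForm F ((Fin n → Bool) × Fin k → F) :=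
  QuadraticMap.weightedSumSquares F fun p => (∏ i, if p.1 i then -a i else 1) * c p.2

/-- `φ` is (isometric to) a subform of `q`. -/
def Contains {u : ℕ} (q : QuadraticForm F (Fin u → F)) {ι : Type} (φ : QuadraticForm F (ι → F)) : Prop :=
  ∃ f : (ι → F) →ₗ[F] (Fin u → F), Function.Injective f ∧ ∀ x, q (f x) = φ x

/-- The form `q` over the extension `K` (the same symmetric matrix). -/
noncomputable def extend [Invertible (2 : F)] (K : Type w) [Field K] [Algebra F K] {u : ℕ}
    (q : QuadraticForm F (Fin u → F)) : QuadraticForm K (Fin u → K) :=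
  (q.toMatrix'.map (algebraMap F K)).toQuadraticForm'

/-- **Main result.** -/
theorem result [Invertible (2 : F)] {u : ℕ} (hu : IsU F u) (q : QuadraticForm F (Fin u → F)) (hq : q.Anisotropic) :
    (∀ (n k : ℕ) (a : Fin n → F) (c : Fin k → F), 0 < k → u < 2 ^ n * (k + 1) → Contains q (multiple a c) →
      2 ^ n * k = u) ∧
    (Odd u → ∀ (K : Type w) [Field K] [Algebra F K], Module.finrank F K = 2 → ∀ W : Submodule K (Fin u → K),
      (∀ w ∈ W, extend K q w = 0) → 2 * Module.finrank K W + 3 ≤ u) := by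
  refine ⟨fun n k a c hk h hc => ?_, fun hodd K _ _ hK W hW => ?_⟩
  · obtain ⟨f, hf, hqf⟩ := hc
    exact Pool.Agent.H21.UI.clause1 (Invertible.ne_zero 2) hu.2 q hq hk a c h f hf hqf
  · exact Pool.Agent.H21.UI.clause2 hodd hu.2 q hq hK W hW

end Pool.Agent.Results.MP_c19190_al.PfisterMultiples
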